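import Pool.Agent.Helper99.RS.Defs
import Pool.Agent.Helper78.FB.Straight
import Pool.Agent.Helper78.FB.Dense

/-!
# RS, END-1: a function whose gradient is parallel to the normal is constant on the surface
-/

set_option autoImplicit false

open Set Filter
open scoped Topology ContDiff

namespace Pool.Agent.Helper99.RS

open Pool.Agent.Helper78.FB

private theorem pd_linc (c : Fin 3 → ℝ) (j : Fin 3) : pd j (fun y : E => ∑ k, c k * y k) = fun _ => c j := by
  have h1 := pd_sum (i := j) Finset.univ (fun (k : Fin 3) (y : E) => c k * y k)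
    (fun k _ => contDiff_const.mul (contDiff_coord k))
  rw [h1]
  funext y
  rw [Finset.sum_eq_single j]
  · rw [pd_const_mul j (c j) (contDiff_coord j), pd_coord]
    simp
  · intro k _ hk
    rw [pd_const_mul j (c k) (contDiff_coord k), pd_coord]
    simp [Ne.symm hk]
  · simp

private theorem chart_at {F : E → ℝ} (h : FBMS F) {z : E} (hz : z ∈ inn F) :
    ∃ e : OpenPartialHomeomorph E E, z ∈ e.source ∧ (∀ y ∈ e.source, e y 0 = F y) ∧
      ∀ x ∈ e.target, ContDiffAt ℝ 1 e.symm x := by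
  obtain ⟨U, hUo, hSU, hU⟩ := h.unit
  have hN : ∑ i, pd i F z ^ 2 = 1 := hU z (hSU ⟨hz.1.le, hz.2⟩)
  obtain ⟨j, hj⟩ : ∃ j : Fin 3, pd j F z ^ 2 < 1 := by
    by_contra hcon
    push Not at hcon
    rw [Fin.sum_univ_three] at hN
    linarith [hcon 0, hcon 1, hcon 2]
  let a : Fin 3 → ℝ := fun i => pd i F z
  let b : Fin 3 → ℝ := fun i => if i = j then 1 else 0
  let c : Fin 3 → ℝ := ![a 1 * b 2 - a 2 * b 1, a 2 * b 0 - a 0 * b 2, a 0 * b 1 - a 1 * b 0]
  let g : Fin 3 → E → ℝ := ![F, fun y => ∑ k, b k * y k, fun y => ∑ k, c k * y k]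
  have hlin : ∀ d : Fin 3 → ℝ, ContDiff ℝ ∞ (fun y : E => ∑ k, d k * y k) := fun d =>
    ContDiff.sum fun k _ => contDiff_const.mul (contDiff_coord k)
  have hg : ∀ i, ContDiff ℝ ∞ (g i) := by
    intro i
    fin_cases i
    · exact h.smooth
    · exact hlin b
    · exact hlin c
  have hmat : (Matrix.of fun i j : Fin 3 => pd j (g i) z) = Matrix.of ![a, b, c] := by
    ext i k
    fin_cases i
    · rfl
    · exact congrFun (pd_linc b k) z
    · exact congrFun (pd_linc c k) z
  have hdet : (Matrix.of fun i j : Fin 3 => pd j (g i) z).det ≠ 0 := by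
    rw [hmat, det_cross a b]
    have h1 : ∑ i, a i ^ 2 = 1 := hN
    have h2 : ∑ i, b i ^ 2 = 1 := by
      rw [Finset.sum_eq_single j]
      · simp [b]
      · intro k _ hk; simp [b, hk]
      · simp
    have h3 : ∑ i, a i * b i = a j := by
      rw [Finset.sum_eq_single j]
      · simp [b]
      · intro k _ hk; simp [b, hk]
      · simp
    rw [h1, h2, h3]
    have h4 : a j ^ 2 < 1 := hj
    intro h5
    linarith
  obtain ⟨e, he1, he2, he3⟩ := straighten g hg z hdet
  exact ⟨e, he1, fun y hy => he2 y hy 0, he3⟩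

private theorem fderiv_par {f F : E → ℝ} {y : E} {m : ℝ} (hm : ∀ k, pd k f y = m * pd k F y) (v : E) :
    fderiv ℝ f y v = m * fderiv ℝ F y v := by
  have hv : v = ∑ i, v i • (EuclideanSpace.single i (1 : ℝ) : E) := by
    ext j
    simp [Pi.single_apply]
  rw [hv, map_sum, map_sum, Finset.mul_sum]
  refine Finset.sum_congr rfl fun i _ => ?_
  rw [map_smul, map_smul, smul_eq_mul, smul_eq_mul]
  have := hm i
  unfold pd at this
  rw [this]
  ring

private theorem locally_const {F : E → ℝ} (h : FBMS F) {f : E → ℝ} (hf : ContDiff ℝ ∞ f)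
    (hp : ∀ y ∈ inn F, ∃ m : ℝ, ∀ k, pd k f y = m * pd k F y) {z : E} (hz : z ∈ inn F) :
    ∀ᶠ x in 𝓝[inn F] z, f z = f x := by
  obtain ⟨e, hze, he0, hes⟩ := chart_at h hz
  obtain ⟨δ, hδ, hball⟩ : ∃ δ > 0, Metric.ball (e z) δ ⊆ e.target ∩ e.symm ⁻¹' {y | ‖y‖ < 1} := by
    rw [← Metric.mem_nhds_iff]
    refine Filter.inter_mem (e.open_target.mem_nhds (e.map_source hze)) ?_
    have hc : ContinuousAt e.symm (e z) := e.continuousAt_symm (e.map_source hze)
    apply hc.preimage_mem_nhds
    rw [e.left_inv hze]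
    exact (isOpen_lt continuous_norm continuous_const).mem_nhds hz.1
  have hnear : ∀ᶠ x in 𝓝 z, x ∈ e.source ∧ e x ∈ Metric.ball (e z) δ := by
    exact Filter.Eventually.and (e.open_source.mem_nhds hze)
      ((e.continuousAt hze).preimage_mem_nhds (Metric.ball_mem_nhds _ hδ))
  filter_upwards [mem_nhdsWithin_of_mem_nhds hnear, self_mem_nhdsWithin] with x hx hxi
  obtain ⟨hxs, hxb⟩ := hx
  let w : E := e x - e z
  let u : ℝ → E := fun t => e z + t • w
  have hub : ∀ t ∈ Set.Icc (0 : ℝ) 1, u t ∈ Metric.ball (e z) δ := by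
    intro t ht
    rw [Metric.mem_ball, dist_eq_norm]
    have h1 : u t - e z = t • w := by simp only [u]; abel
    rw [h1, norm_smul, Real.norm_of_nonneg ht.1]
    rw [Metric.mem_ball, dist_eq_norm] at hxb
    have h2 : ‖w‖ < δ := hxb
    nlinarith [norm_nonneg w, ht.1, ht.2]
  have hw0 : w 0 = 0 := by
    have h1 : w 0 = e x 0 - e z 0 := rfl
    rw [h1, he0 x hxs, he0 z hze, hxi.2, hz.2, sub_zero]
  have hu0 : ∀ t, u t 0 = 0 := by
    intro t
    have h1 : u t 0 = e z 0 + t * w 0 := rfl
    rw [h1, hw0, he0 z hze, hz.2]; ring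
  have hud : ∀ t, HasDerivAt u w t := by
    intro t
    have h1 : HasDerivAt (fun t : ℝ => t • w) ((1 : ℝ) • w) t := (hasDerivAt_id t).smul_const w
    rw [one_smul] at h1
    exact h1.const_add (e z)
  have hder : ∀ t ∈ Set.Icc (0 : ℝ) 1, HasDerivAt (fun s => f (e.symm (u s))) 0 t := by
    intro t ht
    have hut := hball (hub t ht)
    have hs : HasFDerivAt e.symm (fderiv ℝ e.symm (u t)) (u t) :=
      ((hes (u t) hut.1).differentiableAt (by norm_num)).hasFDerivAt
    have hγ : HasDerivAt (fun s => e.symm (u s)) (fderiv ℝ e.symm (u t) w) t := hs.comp_hasDerivAt t (hud t)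
    have hF : HasDerivAt (fun s => F (e.symm (u s))) (fderiv ℝ F (e.symm (u t)) (fderiv ℝ e.symm (u t) w)) t :=
      ((h.smooth.differentiable (by simp) _).hasFDerivAt).comp_hasDerivAt t hγ
    have hf' : HasDerivAt (fun s => f (e.symm (u s))) (fderiv ℝ f (e.symm (u t)) (fderiv ℝ e.symm (u t) w)) t :=
      ((hf.differentiable (by simp) _).hasFDerivAt).comp_hasDerivAt t hγ
    have hzero : HasDerivAt (fun s => F (e.symm (u s))) 0 t := by
      have h1 : (fun s => F (e.symm (u s))) =ᶠ[𝓝 t] fun _ => (0 : ℝ) := by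
        have h2 : ∀ᶠ s in 𝓝 t, u s ∈ e.target :=
          (hud t).continuousAt.preimage_mem_nhds (e.open_target.mem_nhds hut.1)
        filter_upwards [h2] with s hs
        have h3 := he0 _ (e.map_target hs)
        rw [e.right_inv hs] at h3
        rw [← h3, hu0]
      exact (hasDerivAt_const t (0 : ℝ)).congr_of_eventuallyEq h1
    have hz0 : fderiv ℝ F (e.symm (u t)) (fderiv ℝ e.symm (u t) w) = 0 := hF.unique hzero
    have hinn : e.symm (u t) ∈ inn F := by
      refine ⟨hut.2, ?_⟩
      have h3 := he0 _ (e.map_target hut.1)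
      rw [e.right_inv hut.1] at h3
      rw [← h3, hu0]
    obtain ⟨m, hm⟩ := hp _ hinn
    rw [fderiv_par hm, hz0, mul_zero] at hf'
    exact hf'
  have hcst := constant_of_has_deriv_right_zero (f := fun s => f (e.symm (u s))) (a := 0) (b := 1)
    (fun t ht => (hder t ht).continuousAt.continuousWithinAt)
    (fun t ht => (hder t ⟨ht.1, ht.2.le⟩).hasDerivWithinAt) 1 ⟨zero_le_one, le_rfl⟩
  have h0 : e.symm (u 0) = z := by
    have : u 0 = e z := by simp [u]
    rw [this, e.left_inv hze]
  have h1 : e.symm (u 1) = x := by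
    have : u 1 = e x := by simp [u, w]
    rw [this, e.left_inv hxs]
  simp only [h0, h1] at hcst
  exact hcst.symm

theorem const_of_par {F : E → ℝ} (h : FBMS F) (hconn : IsPreconnected (inn F)) {f : E → ℝ} (hf : ContDiff ℝ ∞ f)
    (hp : ∀ y ∈ inn F, ∃ m : ℝ, ∀ k, pd k f y = m * pd k F y) :
    ∀ x ∈ surf F, ∀ y ∈ surf F, f x = f y := by
  have hinn : ∀ x ∈ inn F, ∀ y ∈ inn F, f x = f y := by
    intro x hx y hy
    exact hconn.induction₂ (fun a b => f a = f b) (fun a ha => locally_const h hf hp ha)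
      (fun _ _ _ _ _ _ h1 h2 => h1.trans h2) (fun _ _ _ _ h1 => h1.symm) hx hy
  intro x hx y hy
  have hxc := surf_subset h hx
  have hyc := surf_subset h hy
  have h1 : ∀ a ∈ inn F, f x = f a := by
    intro a ha
    have hcl : IsClosed {p : E | f p = f a} := isClosed_eq hf.continuous continuous_const
    exact (closure_minimal (fun p hp => hinn p hp a ha) hcl) hxc
  have hcl : IsClosed {p : E | f x = f p} := isClosed_eq continuous_const hf.continuous
  exact (closure_minimal (fun p hp => h1 p hp) hcl) hyc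

end Pool.Agent.Helper99.RS
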