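import Pool.Agent.Helper99.RS.Defs

/-!
# RS: two disjoint path connected sets around `0`, one of them not enclosing the other (leaf WND)
-/

set_option autoImplicit false

open Set Filter
open scoped Topology

namespace Pool.Agent.Helper99.RS

/-- `L` is a continuous logarithm of the path `g - x` and does not close up. -/
def Win (g : C(unitInterval, ℂ)) (x : ℂ) : Prop :=
  ∃ L : C(unitInterval, ℂ), (∀ t, Complex.exp (L t) = g t - x) ∧ L 0 ≠ L 1

theorem lift_unique {X : Type*} [TopologicalSpace X] [PreconnectedSpace X] {f g : X → ℂ}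
    (hf : Continuous f) (hg : Continuous g) (h : ∀ t, Complex.exp (f t) = Complex.exp (g t)) (a : X)
    (ha : f a = g a) : f = g := by
  have := Complex.isCoveringMap_exp.eq_of_comp_eq hf hg (funext fun t => Subtype.ext (h t)) a ha
  exact this

/-- transport of the winding along a path off the image of the loop -/
theorem win_trans {g : C(unitInterval, ℂ)} (hg : g 0 = g 1) {x y : ℂ}
    (hj : JoinedIn (Set.range g)ᶜ x y) (hx : Win g x) : Win g y := by
  obtain ⟨P, hP⟩ := hj
  obtain ⟨L, hL, hne⟩ := hx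
  have hnz : ∀ s t : unitInterval, g t - P s ≠ 0 := by
    intro s t h0
    exact hP s ⟨t, sub_eq_zero.1 h0⟩
  let H : C(unitInterval × unitInterval, {z : ℂ // z ≠ 0}) :=
    ⟨fun q => ⟨g q.2 - P q.1, hnz q.1 q.2⟩, by fun_prop⟩
  have H0 : ∀ t, H (0, t) = (⟨_, (L t).exp_ne_zero⟩ : {z : ℂ // z ≠ 0}) := by
    intro t
    apply Subtype.ext
    simp [H, hL t]
  let G := Complex.isCoveringMap_exp.liftHomotopy H L H0
  have hG : ∀ s t, Complex.exp (G (s, t)) = g t - P s := by
    intro s t
    have := congr_fun (Complex.isCoveringMap_exp.liftHomotopy_lifts H L H0) (s, t)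
    exact congrArg Subtype.val this
  have hG0 : ∀ t, G (0, t) = L t := fun t => Complex.isCoveringMap_exp.liftHomotopy_zero H L H0 t
  have key : (fun s : unitInterval => G (s, 1)) = fun s => G (s, 0) + (L 1 - L 0) := by
    refine lift_unique (by fun_prop) (by fun_prop) ?_ 0 ?_
    · intro s
      have h1 : Complex.exp (L 1 - L 0) = 1 := by
        rw [Complex.exp_sub, hL, hL, hg]
        have := hnz 0 1
        simp at this
        exact div_self this
      rw [Complex.exp_add, h1, mul_one, hG, hG, hg]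
    · simp only [hG0]; ring
  refine ⟨⟨fun t => G (1, t), by fun_prop⟩, ?_, ?_⟩
  · intro t
    have := hG 1 t
    simpa using this
  · intro h
    have := congr_fun key 1
    have h2 : L 1 - L 0 = 0 := by
      have h3 : G (1, 0) = G (1, 1) := h
      have h4 : G (1, 1) = G (1, 0) + (L 1 - L 0) := this
      rw [← h3] at h4
      linear_combination -h4
    exact hne (sub_eq_zero.1 h2).symm

/-- no winding about a point outside of a closed ball that contains the loop -/
theorem not_win {g : C(unitInterval, ℂ)} (hg : g 0 = g 1) {x : ℂ} (hx : ∀ t, ‖g t‖ < ‖x‖) : ¬ Win g x := by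
  rintro ⟨L, hL, hne⟩
  have hx0 : x ≠ 0 := by
    rintro rfl
    have := hx 0
    simp at this
    linarith [norm_nonneg (g 0)]
  have hre : ∀ t, (1 - g t / x) ∈ Complex.slitPlane := by
    intro t
    left
    have h1 : ‖g t / x‖ < 1 := by
      rw [norm_div, div_lt_one (norm_pos_iff.2 hx0)]
      exact hx t
    have h2 := (Complex.abs_re_le_norm (g t / x))
    have h3 := (abs_le.1 h2).2
    simp only [Complex.sub_re, Complex.one_re]
    linarith
  let M : unitInterval → ℂ := fun t => Complex.log (-x) + Complex.log (1 - g t / x)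
  have hM : Continuous M := by
    refine continuous_const.add ?_
    exact Continuous.clog (by fun_prop) hre
  have hMe : ∀ t, Complex.exp (M t) = g t - x := by
    intro t
    simp only [M]
    rw [Complex.exp_add, Complex.exp_log (neg_ne_zero.2 hx0), Complex.exp_log (Complex.slitPlane_ne_zero (hre t))]
    field_simp
    ring
  have := lift_unique (f := fun t => L t) (g := fun t => M t + (L 0 - M 0)) (by fun_prop) (by fun_prop) ?_ 0
    (by ring)
  · have h1 := congr_fun this 1
    have h2 : M 1 = M 0 := by simp only [M, hg]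
    have h3 : L 1 = M 1 + (L 0 - M 0) := h1
    rw [h2] at h3
    exact hne (by linear_combination -h3)
  · intro t
    rw [Complex.exp_add, Complex.exp_sub, hMe, hMe, hL, hL]
    have : g 0 - x ≠ 0 := by
      rw [← hMe 0]; exact Complex.exp_ne_zero _
    field_simp

/-- one inequality of `nested`: a loop that winds about `0` reaches farther than any point of a set that is
joined to `0` off the loop -/
theorem reach {g : C(unitInterval, ℂ)} (hg : g 0 = g 1) (hw : Win g 0) {B : Set ℂ} (hB : IsPathConnected B)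
    (hd : ∀ t, g t ∉ B) {b : ℂ} (hb : b ∈ B) (hj : JoinedIn (Set.range g)ᶜ 0 b) {x : ℂ} (hx : x ∈ B) :
    ∃ t, ‖x‖ < ‖g t‖ := by
  by_contra hcon
  push Not at hcon
  have hsub : B ⊆ (Set.range g)ᶜ := by
    rintro y hy ⟨t, rfl⟩
    exact hd t hy
  have h0 : (0 : ℂ) ∉ Set.range g := hj.source_mem
  have hx1 : JoinedIn (Set.range g)ᶜ 0 x := hj.trans ((hB.joinedIn b hb x hx).mono hsub)
  have hx0 : x ≠ 0 := by
    rintro rfl
    have h1 := hcon 0
    rw [norm_zero] at h1
    exact h0 ⟨0, norm_le_zero_iff.1 h1⟩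
  have hxn : 0 < ‖x‖ := norm_pos_iff.2 hx0
  have hx2 : JoinedIn (Set.range g)ᶜ x ((2 : ℝ) • x) := by
    have hseg : ∀ y ∈ segment ℝ x ((2 : ℝ) • x), y ∈ (Set.range g)ᶜ := by
      rintro y ⟨a, c, ha, hc, hac, rfl⟩ ⟨t, ht⟩
      have h1 := hcon t
      have h2 : g t = (a + 2 * c) • x := by rw [ht]; module
      have h3 : ‖g t‖ = (a + 2 * c) * ‖x‖ := by
        rw [h2, norm_smul, Real.norm_of_nonneg (by positivity)]
      have h4 : c = 0 := by
        rw [h3] at h1
        have : a + 2 * c ≤ 1 := by
          by_contra h5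
          push Not at h5
          nlinarith
        linarith
      have h5 : a = 1 := by linarith
      apply hd t
      rw [h2, h4, h5]
      simpa using hx
    exact (JoinedIn.of_segment_subset hseg)
  have := win_trans hg (hx1.trans hx2) hw
  refine not_win hg (x := (2 : ℝ) • x) ?_ this
  intro t
  rw [norm_smul, Real.norm_of_nonneg (by norm_num)]
  linarith [hcon t]

theorem wnd_loop {A : Set ℂ} (h : Wnd A) : ∃ g : C(unitInterval, ℂ), (∀ t, g t ∈ A) ∧ g 0 = g 1 ∧ Win g 0 := by
  obtain ⟨L, h1, h2, h3⟩ := h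
  exact ⟨⟨fun t => Complex.exp (L t), by fun_prop⟩, h1, h2, L, fun t => by simp, h3⟩

theorem exists_far (g : C(unitInterval, ℂ)) : ∃ t, ∀ s, ‖g s‖ ≤ ‖g t‖ := by
  obtain ⟨t, -, ht⟩ := isCompact_univ.exists_isMaxOn (Set.univ_nonempty (α := unitInterval))
    (f := fun t => ‖g t‖) (by fun_prop)
  exact ⟨t, fun s => ht (Set.mem_univ s)⟩

/-- Two disjoint path connected sets that both wind around `0` cannot both be accessible from `0` off every
compact subset of the other one. -/
theorem nested {A B : Set ℂ} (hA : IsPathConnected A) (hB : IsPathConnected B) (hd : Disjoint A B)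
    (_h0A : (0 : ℂ) ∉ A) (_h0B : (0 : ℂ) ∉ B) (wA : Wnd A) (wB : Wnd B)
    (accA : ∀ K ⊆ A, IsCompact K → ∃ b ∈ B, JoinedIn Kᶜ 0 b)
    (accB : ∀ K ⊆ B, IsCompact K → ∃ a ∈ A, JoinedIn Kᶜ 0 a) : False := by
  obtain ⟨g, hgA, hg, hgw⟩ := wnd_loop wA
  obtain ⟨k, hkB, hk, hkw⟩ := wnd_loop wB
  obtain ⟨t, ht⟩ := exists_far g
  obtain ⟨s, hs⟩ := exists_far k
  obtain ⟨b, hb, hjb⟩ := accA (Set.range g) (by rintro _ ⟨t, rfl⟩; exact hgA t) (isCompact_range g.continuous)
  obtain ⟨a, ha, hja⟩ := accB (Set.range k) (by rintro _ ⟨t, rfl⟩; exact hkB t) (isCompact_range k.continuous)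
  obtain ⟨u, hu⟩ := reach hg hgw hB (fun t h => Set.disjoint_left.1 hd (hgA t) h) hb hjb (hkB s)
  obtain ⟨v, hv⟩ := reach hk hkw hA (fun t h => Set.disjoint_left.1 hd h (hkB t)) ha hja (hgA t)
  have h1 := ht u
  have h2 := hs v
  linarith

end Pool.Agent.Helper99.RS
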