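import Pool.Agent.Helper99.RS.UDefs
import Pool.Agent.Helper94.FB.Jac

/-!
# RS, U2: the pointwise identity behind the Carleman inequality
-/

set_option autoImplicit false

open Filter
open scoped ContDiff Topology

namespace Pool.Agent.Helper99.RS

open Pool.Agent.Helper78.FB

variable {F : E → ℝ}

private theorem pd_dot {u v : Fin 3 → E → ℝ} (hu : ∀ i, ContDiff ℝ ∞ (u i)) (hv : ∀ i, ContDiff ℝ ∞ (v i)) (m : Fin 3) :
    pd m (fun y => ∑ i, u i y * v i y) = fun y => ∑ i, (pd m (u i) y * v i y + u i y * pd m (v i) y) := by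
  rw [pd_sum m Finset.univ (fun i y => u i y * v i y) (fun i _ => (hu i).mul (hv i))]
  funext y
  exact Finset.sum_congr rfl fun i _ => by rw [pd_mul m (hu i) (hv i)]

private theorem contDiff_dot {u v : Fin 3 → E → ℝ} (hu : ∀ i, ContDiff ℝ ∞ (u i)) (hv : ∀ i, ContDiff ℝ ∞ (v i)) :
    ContDiff ℝ ∞ (fun y => ∑ i, u i y * v i y) := ContDiff.sum fun i _ => (hu i).mul (hv i)

private theorem pd_tang (hF : ContDiff ℝ ∞ F) {g k : E → ℝ} (hg : ContDiff ℝ ∞ g) (hk : ContDiff ℝ ∞ k) (m : Fin 3) (y : E) :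
    pd m (tang F g k) y = (∑ i, (pd m (pd i g) y * pd i k y + pd i g y * pd m (pd i k) y)) -
      ((∑ i, (pd m (pd i F) y * pd i g y + pd i F y * pd m (pd i g) y)) * (∑ i, pd i F y * pd i k y) +
        (∑ i, pd i F y * pd i g y) * (∑ i, (pd m (pd i F) y * pd i k y + pd i F y * pd m (pd i k) y))) := by
  have cF : ∀ i, ContDiff ℝ ∞ (pd i F) := fun i => contDiff_pd i hF
  have cg : ∀ i, ContDiff ℝ ∞ (pd i g) := fun i => contDiff_pd i hg
  have ck : ∀ i, ContDiff ℝ ∞ (pd i k) := fun i => contDiff_pd i hk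
  have h0 : tang F g k = fun y => (∑ i, pd i g y * pd i k y) - (∑ i, pd i F y * pd i g y) * (∑ i, pd i F y * pd i k y) := rfl
  rw [h0, pd_sub m (contDiff_dot cg ck) ((contDiff_dot cF cg).mul (contDiff_dot cF ck)),
    pd_mul m (contDiff_dot cF cg) (contDiff_dot cF ck), pd_dot cg ck, pd_dot cF cg, pd_dot cF ck]

theorem tang_eq_gr (f k : E → ℝ) (y : E) : tang F f k y = ∑ m, gr F f m y * pd m k y := by
  unfold tang gr
  simp only [Fin.sum_univ_three]
  ring

/-- the product rule for the scalar product of tangential gradients -/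
theorem tang_tang (h : FBMS F) {f g k : E → ℝ} (hg : ContDiff ℝ ∞ g) (hk : ContDiff ℝ ∞ k) {y : E} (hy : y ∈ surf F) :
    tang F f (tang F g k) y = hs F g (fun i => gr F f i y) (fun i => gr F k i y) y +
      hs F k (fun i => gr F f i y) (fun i => gr F g i y) y := by
  have e0 := eik1 h hy 0
  have e1 := eik1 h hy 1
  have e2 := eik1 h hy 2
  rw [tang_eq_gr]
  have hgk : ∀ j, gr F k j y = pd j k y - (∑ k', pd k' F y * pd k' k y) * pd j F y := fun j => rfl
  have hgg : ∀ j, gr F g j y = pd j g y - (∑ k', pd k' F y * pd k' g y) * pd j F y := fun j => rfl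
  unfold hs
  simp only [pd_tang h.smooth hg hk, hgk, hgg]
  generalize hR : (∑ k', pd k' F y * pd k' k y) = R
  generalize hP : (∑ k', pd k' F y * pd k' g y) = P
  simp only [Fin.sum_univ_three] at e0 e1 e2 ⊢
  linear_combination (-2 * P * R * gr F f 0 y) * e0 + (-2 * P * R * gr F f 1 y) * e1 + (-2 * P * R * gr F f 2 y) * e2

theorem tang_mul_left' {a b g : E → ℝ} (ha : ContDiff ℝ ∞ a) (hb : ContDiff ℝ ∞ b) (y : E) :
    tang F (fun x => a x * b x) g y = a y * tang F b g y + b y * tang F a g y := by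
  unfold tang
  simp only [fun i => pd_mul i ha hb, Fin.sum_univ_three]
  ring

theorem tang_add_left' {a b g : E → ℝ} (ha : ContDiff ℝ ∞ a) (hb : ContDiff ℝ ∞ b) (y : E) :
    tang F (fun x => a x + b x) g y = tang F a g y + tang F b g y := by
  unfold tang
  simp only [fun i => pd_add i ha hb, Fin.sum_univ_three]
  ring

theorem tang_sub_left' {a b g : E → ℝ} (ha : ContDiff ℝ ∞ a) (hb : ContDiff ℝ ∞ b) (y : E) :
    tang F (fun x => a x - b x) g y = tang F a g y - tang F b g y := by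
  unfold tang
  simp only [fun i => pd_sub i ha hb, Fin.sum_univ_three]
  ring

theorem tang_const_mul_left' {a g : E → ℝ} (c : ℝ) (ha : ContDiff ℝ ∞ a) (y : E) :
    tang F (fun x => c * a x) g y = c * tang F a g y := by
  unfold tang
  simp only [fun i => pd_const_mul i c ha, Fin.sum_univ_three]
  ring

theorem tang_sq_left' {a g : E → ℝ} (ha : ContDiff ℝ ∞ a) (y : E) :
    tang F (fun x => a x ^ 2) g y = 2 * a y * tang F a g y := by
  have h1 : (fun x => a x ^ 2) = fun x => a x * a x := by funext x; ring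
  rw [h1, tang_mul_left' ha ha]
  ring

noncomputable def f1 (F ψ m z : E → ℝ) (τ : ℝ) (y : E) : ℝ :=
  -4 * τ * tang F ψ z y - 2 * τ * lap F ψ y * z y - 4 * τ * m y * z y

noncomputable def f2 (F ψ m z : E → ℝ) (τ : ℝ) (y : E) : ℝ :=
  2 * τ * tang F z z y - 2 * τ ^ 3 * tang F ψ ψ y * z y ^ 2 - 4 * τ ^ 2 * m y * z y ^ 2

noncomputable def f3 (z : E → ℝ) (τ : ℝ) (y : E) : ℝ := τ * z y ^ 2

noncomputable def f4 (z : E → ℝ) (τ : ℝ) (y : E) : ℝ := 2 * τ * z y ^ 2

theorem contDiff_f1 (hF : ContDiff ℝ ∞ F) {ψ m z : E → ℝ} (hψ : ContDiff ℝ ∞ ψ) (hm : ContDiff ℝ ∞ m)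
    (hz : ContDiff ℝ ∞ z) (τ : ℝ) : ContDiff ℝ ∞ (f1 F ψ m z τ) :=
  ((contDiff_const.mul (contDiff_tang hF hψ hz)).sub ((contDiff_const.mul (contDiff_lap hF hψ)).mul hz)).sub
    ((contDiff_const.mul hm).mul hz)

theorem contDiff_f2 (hF : ContDiff ℝ ∞ F) {ψ m z : E → ℝ} (hψ : ContDiff ℝ ∞ ψ) (hm : ContDiff ℝ ∞ m)
    (hz : ContDiff ℝ ∞ z) (τ : ℝ) : ContDiff ℝ ∞ (f2 F ψ m z τ) :=
  ((contDiff_const.mul (contDiff_tang hF hz hz)).sub ((contDiff_const.mul (contDiff_tang hF hψ hψ)).mul (hz.pow 2))).sub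
    ((contDiff_const.mul hm).mul (hz.pow 2))

theorem contDiff_f3 {z : E → ℝ} (hz : ContDiff ℝ ∞ z) (τ : ℝ) : ContDiff ℝ ∞ (f3 z τ) := contDiff_const.mul (hz.pow 2)

theorem contDiff_f4 {z : E → ℝ} (hz : ContDiff ℝ ∞ z) (τ : ℝ) : ContDiff ℝ ∞ (f4 z τ) := contDiff_const.mul (hz.pow 2)

theorem carl_id (h : FBMS F) {ψ m z : E → ℝ} (hψ : ContDiff ℝ ∞ ψ) (hm : ContDiff ℝ ∞ m) (hz : ContDiff ℝ ∞ z)
    (τ : ℝ) {y : E} (hy : y ∈ surf F) :
    2 * (lap F z y + τ ^ 2 * tang F ψ ψ y * z y + 2 * τ * m y * z y) *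
        (-2 * τ * tang F ψ z y - τ * lap F ψ y * z y - 2 * τ * m y * z y) =
      4 * τ * (hs F ψ (fun i => gr F z i y) (fun i => gr F z i y) y + m y * tang F z z y) +
      4 * τ ^ 3 * (hs F ψ (fun i => gr F ψ i y) (fun i => gr F ψ i y) y - m y * tang F ψ ψ y) * z y ^ 2 +
      (-τ * lap F (lap F ψ) y - 2 * τ * lap F m y + 4 * τ ^ 2 * tang F m ψ y - 8 * τ ^ 2 * m y ^ 2) * z y ^ 2 +
      (tang F (f1 F ψ m z τ) z y + f1 F ψ m z τ y * lap F z y) +
      (tang F (f2 F ψ m z τ) ψ y + f2 F ψ m z τ y * lap F ψ y) +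
      (tang F (f3 z τ) (lap F ψ) y + f3 z τ y * lap F (lap F ψ) y) +
      (tang F (f4 z τ) m y + f4 z τ y * lap F m y) := by
  have hF := h.smooth
  have cT := contDiff_tang hF hψ hz
  have cZ := contDiff_tang hF hz hz
  have cP := contDiff_tang hF hψ hψ
  have cL := contDiff_lap hF hψ
  -- the first function
  have e1 : tang F (f1 F ψ m z τ) z y = -4 * τ * tang F (tang F ψ z) z y -
      2 * τ * (lap F ψ y * tang F z z y + z y * tang F (lap F ψ) z y) -
      4 * τ * (m y * tang F z z y + z y * tang F m z y) := by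
    have h0 : f1 F ψ m z τ = fun x => ((-4 * τ) * tang F ψ z x - (2 * τ) * (lap F ψ x * z x)) - (4 * τ) * (m x * z x) := by
      funext x; unfold f1; ring
    rw [h0, tang_sub_left' ((contDiff_const.mul cT).sub (contDiff_const.mul (cL.mul hz))) (contDiff_const.mul (hm.mul hz)),
      tang_sub_left' (contDiff_const.mul cT) (contDiff_const.mul (cL.mul hz)), tang_const_mul_left' _ cT,
      tang_const_mul_left' _ (cL.mul hz), tang_const_mul_left' _ (hm.mul hz), tang_mul_left' cL hz, tang_mul_left' hm hz]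
  have e2 : tang F (f2 F ψ m z τ) ψ y = 2 * τ * tang F (tang F z z) ψ y -
      2 * τ ^ 3 * (tang F ψ ψ y * (2 * z y * tang F z ψ y) + z y ^ 2 * tang F (tang F ψ ψ) ψ y) -
      4 * τ ^ 2 * (m y * (2 * z y * tang F z ψ y) + z y ^ 2 * tang F m ψ y) := by
    have h0 : f2 F ψ m z τ = fun x => ((2 * τ) * tang F z z x - (2 * τ ^ 3) * (tang F ψ ψ x * z x ^ 2)) -
        (4 * τ ^ 2) * (m x * z x ^ 2) := by
      funext x; unfold f2; ring
    rw [h0, tang_sub_left' ((contDiff_const.mul cZ).sub (contDiff_const.mul (cP.mul (hz.pow 2))))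
        (contDiff_const.mul (hm.mul (hz.pow 2))),
      tang_sub_left' (contDiff_const.mul cZ) (contDiff_const.mul (cP.mul (hz.pow 2))), tang_const_mul_left' _ cZ,
      tang_const_mul_left' _ (cP.mul (hz.pow 2)), tang_const_mul_left' _ (hm.mul (hz.pow 2)),
      tang_mul_left' cP (hz.pow 2), tang_mul_left' hm (hz.pow 2), tang_sq_left' hz]
  have e3 : tang F (f3 z τ) (lap F ψ) y = τ * (2 * z y * tang F z (lap F ψ) y) := by
    unfold f3
    rw [tang_const_mul_left' _ (hz.pow 2), tang_sq_left' hz]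
  have e4 : tang F (f4 z τ) m y = 2 * τ * (2 * z y * tang F z m y) := by
    unfold f4
    rw [tang_const_mul_left' _ (hz.pow 2), tang_sq_left' hz]
  have k1 : tang F (tang F ψ z) z y = hs F ψ (fun i => gr F z i y) (fun i => gr F z i y) y +
      hs F z (fun i => gr F z i y) (fun i => gr F ψ i y) y := by
    rw [tang_comm, tang_tang h hψ hz hy]
  have k2 : tang F (tang F z z) ψ y = 2 * hs F z (fun i => gr F ψ i y) (fun i => gr F z i y) y := by
    rw [tang_comm, tang_tang h hz hz hy]; ring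
  have k3 : tang F (tang F ψ ψ) ψ y = 2 * hs F ψ (fun i => gr F ψ i y) (fun i => gr F ψ i y) y := by
    rw [tang_comm, tang_tang h hψ hψ hy]; ring
  have k4 : hs F z (fun i => gr F z i y) (fun i => gr F ψ i y) y = hs F z (fun i => gr F ψ i y) (fun i => gr F z i y) y := by
    unfold hs
    rw [Finset.sum_comm]
    refine Finset.sum_congr rfl fun i _ => Finset.sum_congr rfl fun j _ => ?_
    rw [pd_comm j i hz, pd_comm j i hF]
    ring
  have c1 : tang F z ψ y = tang F ψ z y := tang_comm y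
  have c2 : tang F z (lap F ψ) y = tang F (lap F ψ) z y := tang_comm y
  have c3 : tang F z m y = tang F m z y := tang_comm y
  rw [e1, e2, e3, e4, k1, k2, k3, k4, c1, c2, c3]
  unfold f1 f2 f3 f4
  ring

end Pool.Agent.Helper99.RS
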