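import Pool.Agent.Helper99.RS.Defs

/-!
# RS: local connectedness of the surface and of its nodal parts (leaf LC)
-/

set_option autoImplicit false

open Set Filter
open scoped Topology ContDiff

namespace Pool.Agent.Helper99.RS

open Pool.Agent.Helper78.FB

private theorem fderiv_sum (f : E → ℝ) (z w : E) : fderiv ℝ f z w = ∑ i, w i * pd i f z := by
  have hw : w = ∑ i, w i • (EuclideanSpace.single i (1 : ℝ) : E) := by
    ext j
    simp [Pi.single_apply]
  conv_lhs => rw [hw]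
  rw [map_sum]
  exact Finset.sum_congr rfl fun i _ => by rw [map_smul, smul_eq_mul]; rfl

private theorem exists_coord {a0 a1 a2 b0 b1 b2 : ℝ}
    (hne : 0 < (a0 ^ 2 + a1 ^ 2 + a2 ^ 2) * (b0 ^ 2 + b1 ^ 2 + b2 ^ 2) - (a0 * b0 + a1 * b1 + a2 * b2) ^ 2) :
    ∃ k : Fin 3, ∀ w : Fin 3 → ℝ, w 0 * a0 + w 1 * a1 + w 2 * a2 = 0 → w 0 * b0 + w 1 * b1 + w 2 * b2 = 0 →
      w k = 0 → w 0 = 0 ∧ w 1 = 0 ∧ w 2 = 0 := by
  by_contra hcon
  push Not at hcon
  obtain ⟨u, hu0, hu1, hu2, hun⟩ := hcon 0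
  obtain ⟨v, hv0, hv1, hv2, hvn⟩ := hcon 1
  obtain ⟨w, hw0, hw1, hw2, hwn⟩ := hcon 2
  have m12 : a1 * b2 - a2 * b1 = 0 := by
    by_contra hm
    have e1 : u 1 = 0 := by
      have : (a1 * b2 - a2 * b1) * u 1 = 0 := by rw [hu2] at hu0 hu1; linear_combination b2 * hu0 - a2 * hu1
      exact (mul_eq_zero.1 this).resolve_left hm
    have e2 : u 2 = 0 := by
      have : (a1 * b2 - a2 * b1) * u 2 = 0 := by rw [hu2] at hu0 hu1; linear_combination a1 * hu1 - b1 * hu0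
      exact (mul_eq_zero.1 this).resolve_left hm
    exact hun hu2 e1 e2
  have m02 : a0 * b2 - a2 * b0 = 0 := by
    by_contra hm
    have e1 : v 0 = 0 := by
      have : (a0 * b2 - a2 * b0) * v 0 = 0 := by rw [hv2] at hv0 hv1; linear_combination b2 * hv0 - a2 * hv1
      exact (mul_eq_zero.1 this).resolve_left hm
    have e2 : v 2 = 0 := by
      have : (a0 * b2 - a2 * b0) * v 2 = 0 := by rw [hv2] at hv0 hv1; linear_combination a0 * hv1 - b0 * hv0
      exact (mul_eq_zero.1 this).resolve_left hm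
    exact hvn e1 hv2 e2
  have m01 : a0 * b1 - a1 * b0 = 0 := by
    by_contra hm
    have e1 : w 0 = 0 := by
      have : (a0 * b1 - a1 * b0) * w 0 = 0 := by rw [hw2] at hw0 hw1; linear_combination b1 * hw0 - a1 * hw1
      exact (mul_eq_zero.1 this).resolve_left hm
    have e2 : w 1 = 0 := by
      have : (a0 * b1 - a1 * b0) * w 1 = 0 := by rw [hw2] at hw0 hw1; linear_combination a0 * hw1 - b0 * hw0
      exact (mul_eq_zero.1 this).resolve_left hm
    exact hwn e1 e2 hw2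
  have : (a0 ^ 2 + a1 ^ 2 + a2 ^ 2) * (b0 ^ 2 + b1 ^ 2 + b2 ^ 2) - (a0 * b0 + a1 * b1 + a2 * b2) ^ 2
      = (a1 * b2 - a2 * b1) ^ 2 + (a0 * b2 - a2 * b0) ^ 2 + (a0 * b1 - a1 * b0) ^ 2 := by ring
  rw [this, m12, m02, m01] at hne
  norm_num at hne

/-- inverse function theorem: preimages of convex sets -/
theorem inv_conn {W : Type*} [NormedAddCommGroup W] [NormedSpace ℝ W] [FiniteDimensional ℝ W] {G : W → W} {z : W}
    (hGd : HasStrictFDerivAt G (fderiv ℝ G z) z) (hinj : ∀ w, fderiv ℝ G z w = 0 → w = 0) {U : Set W}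
    (hU : U ∈ 𝓝 z) : ∃ V : Set W, IsOpen V ∧ z ∈ V ∧ V ⊆ U ∧
      ∀ C : Set W, Convex ℝ C → IsPreconnected (V ∩ G ⁻¹' C) ∧
        (G z ∈ C → IsPathConnected (V ∩ G ⁻¹' C)) := by
  have : CompleteSpace W := FiniteDimensional.complete ℝ W
  have hinj' : Function.Injective (fderiv ℝ G z : W →ₗ[ℝ] W) := by
    rw [← LinearMap.ker_eq_bot, LinearMap.ker_eq_bot']
    exact fun w hw => hinj w hw
  obtain ⟨L, hL⟩ : ∃ L : W ≃L[ℝ] W, (L : W →L[ℝ] W) = fderiv ℝ G z :=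
    ⟨(LinearEquiv.ofInjectiveEndo _ hinj').toContinuousLinearEquiv, ContinuousLinearMap.ext fun w => rfl⟩
  have hGL : HasStrictFDerivAt G (L : W →L[ℝ] W) z := by rw [hL]; exact hGd
  obtain ⟨Φ, hΦ, hzs⟩ : ∃ Φ : OpenPartialHomeomorph W W, (∀ y, Φ y = G y) ∧ z ∈ Φ.source :=
    ⟨hGL.toOpenPartialHomeomorph G, fun y => rfl, hGL.mem_toOpenPartialHomeomorph_source⟩
  have hzt : G z ∈ Φ.target := by rw [← hΦ]; exact Φ.map_source hzs
  obtain ⟨δ, hδ, hball⟩ : ∃ δ > 0, Metric.ball (G z) δ ⊆ Φ.target ∩ Φ.symm ⁻¹' U := by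
    rw [← Metric.mem_nhds_iff]
    refine Filter.inter_mem (Φ.open_target.mem_nhds hzt) ?_
    have hc : ContinuousAt Φ.symm (G z) := Φ.continuousAt_symm hzt
    apply hc.preimage_mem_nhds
    have : Φ.symm (G z) = z := by rw [← hΦ]; exact Φ.left_inv hzs
    rw [this]
    exact hU
  refine ⟨Φ.source ∩ Φ ⁻¹' Metric.ball (G z) δ, Φ.isOpen_inter_preimage Metric.isOpen_ball,
    ⟨hzs, by rw [Set.mem_preimage, hΦ]; exact Metric.mem_ball_self hδ⟩, ?_, ?_⟩
  · rintro y ⟨hy1, hy2⟩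
    have := (hball hy2).2
    rw [Set.mem_preimage, Φ.left_inv hy1] at this
    exact this
  · intro C hC
    have hK : Convex ℝ (Metric.ball (G z) δ ∩ C) := (convex_ball _ _).inter hC
    have himg : Φ.source ∩ Φ ⁻¹' Metric.ball (G z) δ ∩ G ⁻¹' C = Φ.symm '' (Metric.ball (G z) δ ∩ C) := by
      ext y
      constructor
      · rintro ⟨⟨hy1, hy2⟩, hy3⟩
        exact ⟨Φ y, ⟨hy2, by rw [hΦ]; exact hy3⟩, Φ.left_inv hy1⟩
      · rintro ⟨u, ⟨hu1, hu2⟩, rfl⟩
        have ht := (hball hu1).1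
        have e : Φ (Φ.symm u) = u := Φ.right_inv ht
        refine ⟨⟨Φ.map_target ht, ?_⟩, ?_⟩
        · rw [Set.mem_preimage, e]; exact hu1
        · rw [Set.mem_preimage, ← hΦ, e]; exact hu2
    have hcont : ContinuousOn Φ.symm (Metric.ball (G z) δ ∩ C) :=
      Φ.continuousOn_symm.mono fun u hu => (hball hu.1).1
    rw [himg]
    refine ⟨hK.isPreconnected.image _ hcont, fun hz => ?_⟩
    exact (hK.isPathConnected ⟨G z, Metric.mem_ball_self hδ, hz⟩).image' hcont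

/-- the chart with coordinates `f0`, `f1` and a coordinate function -/
theorem chart3 {f0 f1 : E → ℝ} (h0 : ContDiff ℝ ∞ f0) (h1 : ContDiff ℝ ∞ f1) {z : E}
    (hne : 0 < (∑ i, pd i f0 z ^ 2) * (∑ i, pd i f1 z ^ 2) - (∑ i, pd i f0 z * pd i f1 z) ^ 2)
    {U : Set E} (hU : U ∈ 𝓝 z) : ∃ V : Set E, IsOpen V ∧ z ∈ V ∧ V ⊆ U ∧
      ∀ C : Set (ℝ × ℝ), Convex ℝ C → IsPreconnected (V ∩ {y | (f0 y, f1 y) ∈ C}) ∧
        ((f0 z, f1 z) ∈ C → IsPathConnected (V ∩ {y | (f0 y, f1 y) ∈ C})) := by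
  simp only [Fin.sum_univ_three] at hne
  obtain ⟨k, hk⟩ := exists_coord hne
  have hG : ContDiff ℝ ∞ (fun y : E => (!₂[f0 y, f1 y, y k] : E)) := by
    rw [contDiff_euclidean]
    intro i
    fin_cases i
    · exact h0
    · exact h1
    · exact contDiff_piLp_apply (p := 2)
  obtain ⟨G, hGdef⟩ : ∃ G : E → E, G = fun y : E => (!₂[f0 y, f1 y, y k] : E) := ⟨_, rfl⟩
  rw [← hGdef] at hG
  have g0 : (fun y => G y 0) = f0 := by rw [hGdef]; rfl
  have g1 : (fun y => G y 1) = f1 := by rw [hGdef]; rfl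
  have g2 : (fun y => G y 2) = fun y => (EuclideanSpace.proj k : E →L[ℝ] ℝ) y := by rw [hGdef]; rfl
  have hGd : HasStrictFDerivAt G (fderiv ℝ G z) z := hG.contDiffAt.hasStrictFDerivAt (by norm_num)
  have hcomp : ∀ (i : Fin 3) (w : E), (fderiv ℝ G z w) i = fderiv ℝ (fun y => G y i) z w := by
    intro i w
    have h2 : HasFDerivAt (fun y => G y i) ((EuclideanSpace.proj i : E →L[ℝ] ℝ).comp (fderiv ℝ G z)) z :=
      (EuclideanSpace.proj i : E →L[ℝ] ℝ).hasFDerivAt.comp z hGd.hasFDerivAt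
    rw [h2.fderiv]
    rfl
  obtain ⟨V, hVo, hzV, hVU, hV⟩ := inv_conn hGd (fun w hw => by
    have e0 := hcomp 0 w
    have e1 := hcomp 1 w
    have e2 := hcomp 2 w
    rw [hw] at e0 e1 e2
    rw [g0, fderiv_sum, Fin.sum_univ_three] at e0
    rw [g1, fderiv_sum, Fin.sum_univ_three] at e1
    rw [g2, ContinuousLinearMap.fderiv] at e2
    obtain ⟨r0, r1, r2⟩ := hk w e0.symm e1.symm e2.symm
    ext i
    fin_cases i
    · exact r0
    · exact r1
    · exact r2) hU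
  refine ⟨V, hVo, hzV, hVU, fun C hC => ?_⟩
  have hCc : Convex ℝ {u : E | (u 0, u 1) ∈ C} := by
    intro x hx y hy a b ha hb hab
    exact hC hx hy ha hb hab
  have hset : {y : E | (f0 y, f1 y) ∈ C} = G ⁻¹' {u : E | (u 0, u 1) ∈ C} := by
    ext y
    have e0 : G y 0 = f0 y := congrFun g0 y
    have e1 : G y 1 = f1 y := congrFun g1 y
    show (f0 y, f1 y) ∈ C ↔ (G y 0, G y 1) ∈ C
    rw [e0, e1]
  have hz' : (f0 z, f1 z) ∈ C → G z ∈ {u : E | (u 0, u 1) ∈ C} := by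
    intro hz
    have e0 : G z 0 = f0 z := congrFun g0 z
    have e1 : G z 1 = f1 z := congrFun g1 z
    show (G z 0, G z 1) ∈ C
    rw [e0, e1]
    exact hz
  rw [hset]
  exact ⟨(hV _ hCc).1, fun hz => (hV _ hCc).2 (hz' hz)⟩

private theorem pd_sqs' (j : Fin 3) (p : E) : pd j (fun y : E => ∑ k, y k * y k) p = 2 * p j := by
  rw [pd_sum]
  · beta_reduce
    rw [Finset.sum_eq_single j]
    · rw [pd_mul _ (contDiff_piLp_apply (p := 2)) (contDiff_piLp_apply (p := 2)), pd_coord]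
      simp; ring
    · intro k _ hk
      rw [pd_mul _ (contDiff_piLp_apply (p := 2)) (contDiff_piLp_apply (p := 2)), pd_coord]
      simp [Ne.symm hk]
    · simp
  · intro k _
    exact (contDiff_piLp_apply (p := 2)).mul (contDiff_piLp_apply (p := 2))

theorem lc {F : E → ℝ} (h : FBMS F) {z : E} (hz : z ∈ surf F) {e : ℝ} (he : 0 < e) :
    ∃ V : Set E, IsOpen V ∧ z ∈ V ∧ V ⊆ Metric.ball z e ∧ IsPathConnected (surf F ∩ V) := by
  obtain ⟨U, hUo, hSU, hU⟩ := h.unit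
  have hN : ∑ i, pd i F z ^ 2 = 1 := hU z (hSU hz)
  rcases lt_or_eq_of_le hz.1 with hlt | heq
  · obtain ⟨j, hj⟩ : ∃ j : Fin 3, pd j F z ^ 2 < 1 := by
      by_contra hcon
      push Not at hcon
      rw [Fin.sum_univ_three] at hN
      linarith [hcon 0, hcon 1, hcon 2]
    have hmem : Metric.ball z e ∩ {y | ‖y‖ < 1} ∈ 𝓝 z :=
      Filter.inter_mem (Metric.ball_mem_nhds z he) ((isOpen_lt continuous_norm continuous_const).mem_nhds hlt)
    obtain ⟨V, hVo, hzV, hVU, hV⟩ := chart3 (f0 := F) (f1 := fun y => y j) h.smooth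
      (contDiff_piLp_apply (p := 2)) (z := z) (by
        simp only [pd_coord]
        rw [hN]
        simp
        have := hj
        rw [← sq_abs] at this
        nlinarith [abs_nonneg (pd j F z)]) hmem
    refine ⟨V, hVo, hzV, fun y hy => (hVU hy).1, ?_⟩
    have := (hV ({0} ×ˢ Set.univ) ((convex_singleton 0).prod convex_univ)).2 ⟨hz.2, trivial⟩
    convert this using 1
    ext y
    constructor
    · rintro ⟨hy1, hy2⟩
      exact ⟨hy2, hy1.2, trivial⟩
    · rintro ⟨hy1, hy2⟩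
      exact ⟨⟨(hVU hy1).2.le, hy2.1⟩, hy1⟩
  · have hb : z ∈ bdry F := ⟨heq, hz.2⟩
    have ht := h.transverse z hb
    have hnz : ∑ i, z i ^ 2 = 1 := by
      have := EuclideanSpace.real_norm_sq_eq z
      rw [← this, heq]; norm_num
    obtain ⟨V, hVo, hzV, hVU, hV⟩ := chart3 (f0 := F) (f1 := fun y => ∑ k, y k * y k) h.smooth
      (ContDiff.sum fun k _ => (contDiff_piLp_apply (p := 2)).mul (contDiff_piLp_apply (p := 2))) (z := z) (by
        simp only [pd_sqs']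
        rw [hN]
        simp only [Fin.sum_univ_three] at hnz ht ⊢
        nlinarith) (Metric.ball_mem_nhds z he)
    refine ⟨V, hVo, hzV, hVU, ?_⟩
    have := (hV ({0} ×ˢ Set.Iic 1) ((convex_singleton 0).prod (convex_Iic 1))).2 ⟨hz.2, by
      simp only [Set.mem_Iic]
      have : ∑ k, z k * z k = ∑ i, z i ^ 2 := Finset.sum_congr rfl fun i _ => by ring
      rw [this, hnz]⟩
    have hkey : ∀ y : E, ‖y‖ ≤ 1 ↔ ∑ k, y k * y k ≤ 1 := by
      intro y
      have h1 := EuclideanSpace.real_norm_sq_eq y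
      have h2 : ∑ k, y k * y k = ‖y‖ ^ 2 := by rw [h1]; exact Finset.sum_congr rfl fun i _ => by ring
      rw [h2]
      constructor
      · intro h3; exact pow_le_one₀ (norm_nonneg y) h3
      · intro h3
        by_contra h4
        push Not at h4
        nlinarith
    convert this using 1
    ext y
    constructor
    · rintro ⟨hy1, hy2⟩
      exact ⟨hy2, hy1.2, (hkey y).1 hy1.1⟩
    · rintro ⟨hy1, hy2⟩
      exact ⟨⟨(hkey y).2 hy2.2, hy2.1⟩, hy1⟩

theorem lc_nodal {F : E → ℝ} (h : FBMS F) {φ : E → ℝ} (hp : ContDiff ℝ ∞ φ) {z : E} (hz : z ∈ inn F)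
    (_h0 : φ z = 0) (hr : tang F φ φ z ≠ 0) {e : ℝ} (he : 0 < e) :
    ∃ V : Set E, IsOpen V ∧ z ∈ V ∧ V ⊆ Metric.ball z e ∧ IsPreconnected ({y | y ∈ surf F ∧ 0 < φ y} ∩ V) := by
  obtain ⟨U, hUo, hSU, hU⟩ := h.unit
  have hN : ∑ i, pd i F z ^ 2 = 1 := hU z (hSU ⟨hz.1.le, hz.2⟩)
  have hmem : Metric.ball z e ∩ {y | ‖y‖ < 1} ∈ 𝓝 z :=
    Filter.inter_mem (Metric.ball_mem_nhds z he) ((isOpen_lt continuous_norm continuous_const).mem_nhds hz.1)
  obtain ⟨V, hVo, hzV, hVU, hV⟩ := chart3 (f0 := F) (f1 := φ) h.smooth hp (z := z) (by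
      rw [hN]
      have h1 : tang F φ φ z = (∑ i, pd i φ z ^ 2) - (∑ i, pd i F z * pd i φ z) ^ 2 := by
        unfold tang
        simp only [Fin.sum_univ_three]
        ring
      have h2 : 0 ≤ tang F φ φ z := by
        rw [h1]
        have := Finset.sum_mul_sq_le_sq_mul_sq Finset.univ (fun i => pd i F z) (fun i => pd i φ z)
        rw [hN] at this
        linarith
      have h3 : 0 < tang F φ φ z := lt_of_le_of_ne h2 (Ne.symm hr)
      rw [h1] at h3
      linarith) hmem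
  refine ⟨V, hVo, hzV, fun y hy => (hVU hy).1, ?_⟩
  have := (hV ({0} ×ˢ Set.Ioi 0) ((convex_singleton 0).prod (convex_Ioi 0))).1
  convert this using 1
  ext y
  constructor
  · rintro ⟨hy1, hy2⟩
    exact ⟨hy2, hy1.1.2, hy1.2⟩
  · rintro ⟨hy1, hy2⟩
    exact ⟨⟨⟨(hVU hy1).2.le, hy2.1⟩, hy2.2⟩, hy1⟩

end Pool.Agent.Helper99.RS
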