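import Pool.Agent.Helper99.RS.Defs
import Pool.Agent.Helper78.FB.Straight
import Pool.Agent.Helper78.FB.Dense

/-!
# RS, LP: punctured neighbourhoods of an inner point of the surface are connected
-/

set_option autoImplicit false

open Set Filter
open scoped Topology ContDiff

namespace Pool.Agent.Helper99.RS

open Pool.Agent.Helper78.FB

private theorem pd_linc (c : Fin 3 → ℝ) (j : Fin 3) : pd j (fun y : E => ∑ k, c k * y k) = fun _ => c j := by
  have h1 := pd_sum (i := j) Finset.univ (fun (k : Fin 3) (y : E) => c k * y k)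
    (fun k _ => contDiff_const.mul (contDiff_coord k))
  rw [h1]
  funext y
  rw [Finset.sum_eq_single j]
  · rw [pd_const_mul j (c j) (contDiff_coord j), pd_coord]
    simp
  · intro k _ hk
    rw [pd_const_mul j (c k) (contDiff_coord k), pd_coord]
    simp [Ne.symm hk]
  · simp

private theorem chart_at {F : E → ℝ} (h : FBMS F) {z : E} (hz : z ∈ inn F) :
    ∃ e : OpenPartialHomeomorph E E, z ∈ e.source ∧ (∀ y ∈ e.source, e y 0 = F y) ∧
      ∀ x ∈ e.target, ContDiffAt ℝ 1 e.symm x := by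
  obtain ⟨U, hUo, hSU, hU⟩ := h.unit
  have hN : ∑ i, pd i F z ^ 2 = 1 := hU z (hSU ⟨hz.1.le, hz.2⟩)
  obtain ⟨j, hj⟩ : ∃ j : Fin 3, pd j F z ^ 2 < 1 := by
    by_contra hcon
    push Not at hcon
    rw [Fin.sum_univ_three] at hN
    linarith [hcon 0, hcon 1, hcon 2]
  let a : Fin 3 → ℝ := fun i => pd i F z
  let b : Fin 3 → ℝ := fun i => if i = j then 1 else 0
  let c : Fin 3 → ℝ := ![a 1 * b 2 - a 2 * b 1, a 2 * b 0 - a 0 * b 2, a 0 * b 1 - a 1 * b 0]
  let g : Fin 3 → E → ℝ := ![F, fun y => ∑ k, b k * y k, fun y => ∑ k, c k * y k]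
  have hlin : ∀ d : Fin 3 → ℝ, ContDiff ℝ ∞ (fun y : E => ∑ k, d k * y k) := fun d =>
    ContDiff.sum fun k _ => contDiff_const.mul (contDiff_coord k)
  have hg : ∀ i, ContDiff ℝ ∞ (g i) := by
    intro i
    fin_cases i
    · exact h.smooth
    · exact hlin b
    · exact hlin c
  have hmat : (Matrix.of fun i j : Fin 3 => pd j (g i) z) = Matrix.of ![a, b, c] := by
    ext i k
    fin_cases i
    · rfl
    · exact congrFun (pd_linc b k) z
    · exact congrFun (pd_linc c k) z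
  have hdet : (Matrix.of fun i j : Fin 3 => pd j (g i) z).det ≠ 0 := by
    rw [hmat, det_cross a b]
    have h1 : ∑ i, a i ^ 2 = 1 := hN
    have h2 : ∑ i, b i ^ 2 = 1 := by
      rw [Finset.sum_eq_single j]
      · simp [b]
      · intro k _ hk; simp [b, hk]
      · simp
    have h3 : ∑ i, a i * b i = a j := by
      rw [Finset.sum_eq_single j]
      · simp [b]
      · intro k _ hk; simp [b, hk]
      · simp
    rw [h1, h2, h3]
    have h4 : a j ^ 2 < 1 := hj
    intro h5
    linarith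
  obtain ⟨e, he1, he2, he3⟩ := straighten g hg z hdet
  exact ⟨e, he1, fun y hy => he2 y hy 0, he3⟩

/-- a punctured ball in the plane `u 0 = c 0` is connected -/
private theorem punctured (c : E) (δ : ℝ) :
    IsPreconnected ((Metric.ball c δ ∩ {u : E | u 0 = c 0}) \ {c}) := by
  let f : ℝ × ℝ → E := fun p => !₂[c 0, c 1 + p.1 * Real.cos p.2, c 2 + p.1 * Real.sin p.2]
  have hf : Continuous f := by
    refine (PiLp.continuous_toLp 2 _).comp (continuous_pi fun i => ?_)
    fin_cases i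
    · exact continuous_const
    · exact continuous_const.add (continuous_fst.mul (Real.continuous_cos.comp continuous_snd))
    · exact continuous_const.add (continuous_fst.mul (Real.continuous_sin.comp continuous_snd))
  have himg : (Metric.ball c δ ∩ {u : E | u 0 = c 0}) \ {c} = f '' (Set.Ioo 0 δ ×ˢ Set.univ) := by
    ext u
    constructor
    · rintro ⟨⟨h1, h2⟩, h3⟩
      let w : ℂ := ⟨u 1 - c 1, u 2 - c 2⟩
      have hn : ‖u - c‖ = ‖w‖ := by
        rw [EuclideanSpace.norm_eq, Complex.norm_eq_sqrt_sq_add_sq, Fin.sum_univ_three]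
        congr 1
        have h2' : u 0 = c 0 := h2
        have e0 : (u - c) 0 = 0 := by show u 0 - c 0 = 0; linarith
        have e1 : (u - c) 1 = w.re := rfl
        have e2 : (u - c) 2 = w.im := rfl
        rw [e0, e1, e2]
        simp [Real.norm_eq_abs, sq_abs]
      have hw : w ≠ 0 := by
        intro h4
        apply h3
        have : ‖u - c‖ = 0 := by rw [hn, h4, norm_zero]
        exact sub_eq_zero.1 (norm_eq_zero.1 this)
      refine ⟨(‖w‖, Complex.arg w), ⟨⟨norm_pos_iff.2 hw, ?_⟩, trivial⟩, ?_⟩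
      · rw [← hn, ← dist_eq_norm]; exact h1
      · have e1 : ‖w‖ * Real.cos (Complex.arg w) = u 1 - c 1 := Complex.norm_mul_cos_arg w
        have e2 : ‖w‖ * Real.sin (Complex.arg w) = u 2 - c 2 := Complex.norm_mul_sin_arg w
        ext i
        fin_cases i
        · exact h2.symm
        · show c 1 + ‖w‖ * Real.cos (Complex.arg w) = u 1
          rw [e1]; ring
        · show c 2 + ‖w‖ * Real.sin (Complex.arg w) = u 2
          rw [e2]; ring
    · rintro ⟨⟨r, t⟩, ⟨⟨hr0, hr⟩, -⟩, rfl⟩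
      have hn : ‖f (r, t) - c‖ = r := by
        rw [EuclideanSpace.norm_eq, Fin.sum_univ_three]
        have e0 : (f (r, t) - c) 0 = 0 := by show c 0 - c 0 = 0; ring
        have e1 : (f (r, t) - c) 1 = r * Real.cos t := by
          show c 1 + r * Real.cos t - c 1 = _; ring
        have e2 : (f (r, t) - c) 2 = r * Real.sin t := by
          show c 2 + r * Real.sin t - c 2 = _; ring
        rw [e0, e1, e2]
        have h5 : ‖(0 : ℝ)‖ ^ 2 + ‖r * Real.cos t‖ ^ 2 + ‖r * Real.sin t‖ ^ 2 = r ^ 2 := by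
          simp only [Real.norm_eq_abs, sq_abs, norm_zero]
          have := Real.sin_sq_add_cos_sq t
          linear_combination r ^ 2 * this
        rw [h5, Real.sqrt_sq hr0.le]
      refine ⟨⟨?_, rfl⟩, ?_⟩
      · rw [Metric.mem_ball, dist_eq_norm, hn]; exact hr
      · intro h4
        have h5 : f (r, t) = c := h4
        rw [h5, sub_self, norm_zero] at hn
        exact absurd hn hr0.ne
  rw [himg]
  exact (isPreconnected_Ioo.prod isPreconnected_univ).image _ hf.continuousOn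

private theorem img_eq {W : Type*} [TopologicalSpace W] (Φ : OpenPartialHomeomorph W W) {S : Set W} {z : W} {B P : Set W}
    (hB : B ⊆ Φ.target) (hS : ∀ y ∈ Φ.source, Φ y ∈ B → (y ∈ S ↔ Φ y ∈ P)) (hz : z ∈ Φ.source) :
    (S ∩ (Φ.source ∩ Φ ⁻¹' B)) \ {z} = Φ.symm '' ((B ∩ P) \ {Φ z}) := by
  ext y
  constructor
  · rintro ⟨⟨hy1, hy2, hy3⟩, hy4⟩
    exact ⟨Φ y, ⟨⟨hy3, (hS y hy2 hy3).1 hy1⟩, fun h5 => hy4 (Φ.injOn hy2 hz h5)⟩, Φ.left_inv hy2⟩
  · rintro ⟨u, ⟨⟨hu1, hu2⟩, hu3⟩, rfl⟩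
    have ht := hB hu1
    have hs := Φ.map_target ht
    have er : Φ (Φ.symm u) = u := Φ.right_inv ht
    have hb : Φ (Φ.symm u) ∈ B := by rw [er]; exact hu1
    refine ⟨⟨(hS _ hs hb).2 (by rw [er]; exact hu2), hs, hb⟩, fun h5 => hu3 ?_⟩
    have h6 : Φ.symm u = z := h5
    rw [← h6, er]
    exact Set.mem_singleton u

theorem lp {F : E → ℝ} (h : FBMS F) {z : E} (hz : z ∈ inn F) {e : ℝ} (he : 0 < e) :
    ∃ V : Set E, IsOpen V ∧ z ∈ V ∧ V ⊆ Metric.ball z e ∧ IsPreconnected ((surf F ∩ V) \ {z}) := by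
  obtain ⟨Φ, hzs, hΦ0, -⟩ := chart_at h hz
  have hzt := Φ.map_source hzs
  obtain ⟨δ, hδ, hball⟩ : ∃ δ > 0, Metric.ball (Φ z) δ ⊆ Φ.target ∩ Φ.symm ⁻¹' (Metric.ball z e ∩ {y | ‖y‖ < 1}) := by
    rw [← Metric.mem_nhds_iff]
    refine Filter.inter_mem (Φ.open_target.mem_nhds hzt) ?_
    apply (Φ.continuousAt_symm hzt).preimage_mem_nhds
    rw [Φ.left_inv hzs]
    exact Filter.inter_mem (Metric.ball_mem_nhds z he)
      ((isOpen_lt continuous_norm continuous_const).mem_nhds hz.1)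
  have hV : ∀ y ∈ Φ.source, Φ y ∈ Metric.ball (Φ z) δ → y ∈ Metric.ball z e ∧ ‖y‖ < 1 := by
    intro y hy1 hy2
    have := (hball hy2).2
    rw [Set.mem_preimage, Φ.left_inv hy1] at this
    exact this
  have h0 : Φ z 0 = 0 := by rw [hΦ0 z hzs]; exact hz.2
  have hzb : z ∈ Φ ⁻¹' Metric.ball (Φ z) δ := by
    rw [Set.mem_preimage]
    exact Metric.mem_ball_self hδ
  have himg := img_eq Φ (S := surf F) (z := z) (B := Metric.ball (Φ z) δ) (P := {u : E | u 0 = Φ z 0})
    (fun u hu => (hball hu).1) (fun y hy1 hy2 => by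
      constructor
      · intro h1
        show Φ y 0 = Φ z 0
        rw [h0, hΦ0 y hy1]; exact h1.2
      · intro h1
        have h2 : Φ y 0 = Φ z 0 := h1
        rw [h0, hΦ0 y hy1] at h2
        exact ⟨(hV y hy1 hy2).2.le, h2⟩) hzs
  refine ⟨Φ.source ∩ Φ ⁻¹' Metric.ball (Φ z) δ, Φ.isOpen_inter_preimage Metric.isOpen_ball,
    ⟨hzs, hzb⟩, fun y hy => (hV y hy.1 hy.2).1, ?_⟩
  have hcont : ContinuousOn Φ.symm ((Metric.ball (Φ z) δ ∩ {u : E | u 0 = Φ z 0}) \ {Φ z}) :=
    Φ.continuousOn_symm.mono fun u hu => (hball hu.1.1).1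
  have hp := (punctured (Φ z) δ).image _ hcont
  rw [himg]
  exact hp

end Pool.Agent.Helper99.RS
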